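import Pool.Agent.W649.ZL.Supp
import Pool.Agent.W649.ZL.Fam

set_option autoImplicit false

universe u

namespace Pool.Agent.Results.MP_0f25e6_al.AffineSubspaces

open MvPolynomial Pool.Agent

/-- `α * f` is nonzero for every nonzero square-summable `f`, where
`(α * f)(g) = ∑ α(k) f(k⁻¹ g)`. -/
def Regular {G : Type u} [Group G] (α : G →₀ ℂ) : Prop :=
  ∀ f : G → ℂ, Memℓp f 2 → f ≠ 0 → ∃ g : G, ∑ k ∈ α.support, α k * f (k⁻¹ * g) ≠ 0

/-- All square-summable `f` with `α * f = 0`. -/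
def kernel {G : Type u} [Group G] (α : G →₀ ℂ) : Set (lp (fun _ : G => ℂ) 2) :=
  {f | ∀ g : G, ∑ k ∈ α.support, α k * f (k⁻¹ * g) = 0}

open Classical in
/-- The von Neumann dimension of the kernel of left convolution by `α`: one minus the square of the
distance from the basis vector at the identity of `G` to the kernel (this is the squared length of
the projection of that vector to the kernel). -/
noncomputable def kerDim {G : Type u} [Group G] (α : G →₀ ℂ) : ℝ :=
  1 - Metric.infDist (lp.single 2 (1 : G) (1 : ℂ)) (kernel α) ^ 2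

theorem kerDim_eq {G : Type u} [Group G] (α : G →₀ ℂ) :
    kerDim α = W649.ZL.vd (LinearMap.ker
      (W649.ZL.cop α : W649.ZL.EE G Unit →ₗ[ℂ] W649.ZL.EE G Unit)) :=
  W649.ZL.kerDim_eq_vd α

/-- A group is locally indicable if every nontrivial finitely generated subgroup has a nontrivial
homomorphism to the group of integers. -/
def LocallyIndicable (H : Type u) [Group H] : Prop :=
  ∀ K : Subgroup H, K.FG → K ≠ ⊥ → ∃ φ : K →* Multiplicative ℤ, ∃ k, φ k ≠ 1

/-- The linear combination `∑ aᵢ γᵢ`. -/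
noncomputable def comb {G : Type u} {m : ℕ} (γ : Fin m → (G →₀ ℂ)) (a : Fin m → ℂ) : G →₀ ℂ :=
  ∑ i, a i • γ i

/-- The family of operators. -/
noncomputable def famC {G : Type u} [Group G] {k m : ℕ} (β : Fin k → (G →₀ ℂ))
    (γ : Fin m → (G →₀ ℂ)) :
    Fin k ⊕ Fin m → W649.ZL.EE G Unit →L[ℂ] W649.ZL.EE G Unit :=
  Sum.elim (fun i => W649.ZL.cop (β i)) (fun i => W649.ZL.cop (γ i))

theorem famC_eqv {G : Type u} [Group G] {k m : ℕ} (β : Fin k → (G →₀ ℂ))
    (γ : Fin m → (G →₀ ℂ)) : ∀ i, W649.ZL.Eqv (famC β γ i) := by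
  intro i
  rcases i with x | x
  · exact W649.ZL.cop_eqv _
  · exact W649.ZL.cop_eqv _

theorem lin_famC {G : Type u} [Group G] {k m : ℕ} (β : Fin k → (G →₀ ℂ))
    (γ : Fin m → (G →₀ ℂ)) (c : Fin k → ℂ) (a : Fin m → ℂ) :
    W649.ZL.lin (famC β γ) (Sum.elim c a) = W649.ZL.cop (comb γ a + comb β c) := by
  unfold W649.ZL.lin comb
  rw [Fintype.sum_sum_type, map_add, map_sum, map_sum, add_comm]
  congr 1
  · refine Finset.sum_congr rfl fun i _ => ?_
    rw [map_smul]
    rfl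
  · refine Finset.sum_congr rfl fun i _ => ?_
    rw [map_smul]
    rfl

theorem nice {G : Type u} [Group G] {k m : ℕ} (β : Fin k → (G →₀ ℂ))
    (γ : Fin m → (G →₀ ℂ)) (hγ : ∀ a : Fin m → ℂ, a ≠ 0 → Regular (comb γ a))
    (a : Fin m → ℂ) (ha : a ≠ 0) :
    Function.Injective (W649.ZL.lin (famC β γ) (Sum.elim 0 a)) := by
  rw [lin_famC]
  have h : comb β (0 : Fin k → ℂ) = 0 := by
    unfold comb
    simp
  rw [h, add_zero]
  exact (W649.ZL.regular_iff (comb γ a)).1 (hγ a ha)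

/-- The general theorem. -/
theorem general {G : Type u} [Group G] {k m : ℕ} (hkm : k < m) (β : Fin k → (G →₀ ℂ))
    (γ : Fin m → (G →₀ ℂ)) (hγ : ∀ a : Fin m → ℂ, a ≠ 0 → Regular (comb γ a)) :
    (∀ d : ℝ, 0 < d → ∃ Q : MvPolynomial (Fin m) ℂ, Q ≠ 0 ∧
      ∀ (a : Fin m → ℂ) (c : Fin k → ℂ), d ≤ kerDim (comb γ a + comb β c) → eval a Q = 0) ∧
    (∀ P : ℕ → MvPolynomial (Fin m) ℂ, (∀ n, P n ≠ 0) →
      ∃ a : Fin m → ℂ, (∀ n, eval a (P n) ≠ 0) ∧
        ∀ c : Fin k → ℂ, Regular (comb γ a + comb β c)) := by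
  have key : ∀ d : ℝ, 0 < d → ∃ Q : MvPolynomial (Fin m) ℂ, Q ≠ 0 ∧
      ∀ (a : Fin m → ℂ) (c : Fin k → ℂ), d ≤ kerDim (comb γ a + comb β c) → eval a Q = 0 := by
    intro d hd
    obtain ⟨Q, hQ0, hQ⟩ := W649.ZL.exists_relation (W649.ZL.locus (famC β γ) d)
      (fun p hp t => W649.ZL.locus_cone (famC β γ) d p hp t)
      (W649.ZL.locus_closed (famC β γ) (famC_eqv β γ) d)
      (W649.ZL.locus_meet (famC β γ) d hd (nice β γ hγ)) (by simpa using hkm)
    refine ⟨Q, hQ0, fun a c hac => ?_⟩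
    have h1 := hQ (Sum.elim c a) (by
      change d ≤ W649.ZL.vd _
      rw [lin_famC, ← kerDim_eq]
      exact hac)
    exact h1
  refine ⟨key, fun P hP => ?_⟩
  choose Q hQ0 hQ using fun n : ℕ => key (1 / ((n : ℝ) + 1)) (by positivity)
  obtain ⟨a, ha⟩ := W649.ZL.avoid (fun n => P n * Q n) (fun n => mul_ne_zero (hP n) (hQ0 n))
  refine ⟨a, fun n h => ha n (by rw [map_mul, h, zero_mul]), fun c => ?_⟩
  refine (W649.ZL.regular_iff (comb γ a + comb β c)).2 ?_
  apply W649.ZL.injective_of_vd_eq_zero _ (W649.ZL.cop_eqv _)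
  rw [← kerDim_eq]
  by_contra hcon
  push Not at hcon
  obtain ⟨n, hn⟩ := exists_nat_one_div_lt hcon
  exact ha n (by rw [map_mul, hQ n a c hn.le, mul_zero])

/-- **Regular affine subspaces.** Let `G` be any group.

1. Let `γ₁, …, γ_m` in the complex group algebra be such that `∑ aᵢ γᵢ` acts injectively on `ℓ²(G)`
   for all `a ≠ 0`, and let `β₁, …, β_k` be arbitrary, `k < m`. For every `d > 0` there is a nonzero
   polynomial `Q` in `m` variables such that `Q(a) = 0` whenever for some `c` in `ℂ^k` the kernel of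
   `∑ aᵢ γᵢ + ∑ cⱼ βⱼ` on `ℓ²(G)` has von Neumann dimension at least `d`; and outside any given
   countable family of proper hypersurfaces of `ℂ^m` there is an `a` such that
   `∑ aᵢ γᵢ + ∑ cⱼ βⱼ` acts injectively on `ℓ²(G)` for all `c` in `ℂ^k`.
2. Let `F` be a finite subset of a left coset of a locally indicable subgroup of `G` (for instance
   `F = {1, x, …, x^k}`, `x` of infinite order) and let `W` be a linear subspace of the group algebra
   spanned by fewer than `|F|` elements. There is an `α` with support `F` such that all elements of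
   `α + W` act injectively on `ℓ²(G)`. -/
theorem result {G : Type u} [Group G] :
    (∀ (k m : ℕ), k < m → ∀ (β : Fin k → (G →₀ ℂ)) (γ : Fin m → (G →₀ ℂ)),
      (∀ a : Fin m → ℂ, a ≠ 0 → Regular (comb γ a)) →
      (∀ d : ℝ, 0 < d → ∃ Q : MvPolynomial (Fin m) ℂ, Q ≠ 0 ∧
        ∀ (a : Fin m → ℂ) (c : Fin k → ℂ), d ≤ kerDim (comb γ a + comb β c) → eval a Q = 0) ∧
      (∀ P : ℕ → MvPolynomial (Fin m) ℂ, (∀ n, P n ≠ 0) →
        ∃ a : Fin m → ℂ, (∀ n, eval a (P n) ≠ 0) ∧
          ∀ c : Fin k → ℂ, Regular (comb γ a + comb β c))) ∧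
    (∀ (H : Subgroup G), LocallyIndicable H → ∀ (t : G) (F : Finset G), (∀ x ∈ F, t⁻¹ * x ∈ H) →
      ∀ (W : Submodule ℂ (G →₀ ℂ)) (S : Finset (G →₀ ℂ)), W = Submodule.span ℂ (S : Set (G →₀ ℂ)) →
        S.card < F.card → ∃ α : G →₀ ℂ, α.support = F ∧ ∀ w ∈ W, Regular (α + w)) := by
  classical
  refine ⟨fun k m hkm β γ hγ => general hkm β γ hγ, ?_⟩
  rintro H hH t F hF W S rfl hcard
  set e := F.equivFin with he
  set eS := S.equivFin with heS
  let γ : Fin F.card → (G →₀ ℂ) := fun i => Finsupp.single ((e.symm i : F) : G) 1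
  let β : Fin S.card → (G →₀ ℂ) := fun i => ((eS.symm i : S) : G →₀ ℂ)
  have hcomb : ∀ a : Fin F.card → ℂ, comb γ a = W649.ZL.ofF F (fun x : F => a (e x)) := by
    intro a
    unfold comb W649.ZL.ofF
    rw [← e.symm.sum_comp]
    refine Finset.sum_congr rfl fun i _ => ?_
    change a i • Finsupp.single ((e.symm i : F) : G) 1 =
      Finsupp.single ((e.symm i : F) : G) (a (e (e.symm i)))
    rw [Finsupp.smul_single, smul_eq_mul, mul_one, Equiv.apply_symm_apply]
  have hγ : ∀ a : Fin F.card → ℂ, a ≠ 0 → Regular (comb γ a) := by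
    intro a ha
    refine (W649.ZL.regular_iff (comb γ a)).2 ?_
    rw [hcomb]
    apply W649.ZL.ofF_injective_of_LI F t H hH hF
    intro h
    apply ha
    funext i
    have h1 := congrFun h (e.symm i)
    simpa using h1
  obtain ⟨a, ha, hreg⟩ := (general hcard β γ hγ).2 (fun _ => ∏ i, X i) (fun _ =>
    Finset.prod_ne_zero_iff.2 fun i _ => X_ne_zero i)
  have ha' : ∀ i, a i ≠ 0 := by
    intro i h
    apply ha 0
    rw [map_prod]
    apply Finset.prod_eq_zero (Finset.mem_univ i)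
    rw [eval_X, h]
  refine ⟨comb γ a, ?_, ?_⟩
  · rw [hcomb]
    apply Finset.Subset.antisymm (W649.ZL.ofF_support F _)
    intro x hx
    rw [Finsupp.mem_support_iff]
    have h1 := W649.ZL.ofF_apply F (fun x : F => a (e x)) ⟨x, hx⟩
    change W649.ZL.ofF F (fun x : F => a (e x)) x = _ at h1
    rw [h1]
    exact ha' _
  · intro w hw
    obtain ⟨c, hc⟩ : ∃ c : Fin S.card → ℂ, comb β c = w := by
      rw [Submodule.mem_span_finset] at hw
      obtain ⟨f, _, hf⟩ := hw
      refine ⟨fun i => f (β i), ?_⟩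
      rw [← hf]
      unfold comb
      rw [← Finset.sum_coe_sort S, ← eS.symm.sum_comp]
    rw [← hc]
    exact hreg c

end Pool.Agent.Results.MP_0f25e6_al.AffineSubspaces
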