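import Pool.Agent.V1132.GE.Gen
import Pool.Agent.V1132.GE.Closed
import Pool.Agent.V1132.KD.Bez

set_option autoImplicit false
set_option linter.unusedSectionVars false

universe u

namespace Pool.Agent.Results.MP_0f25e6_al.CompactValues

open MvPolynomial Pool.Agent

/-- All square-summable `f` with `α * f = 0`. -/
def kernel {G : Type u} [Group G] (α : G →₀ ℂ) : Set (lp (fun _ : G => ℂ) 2) :=
  {f | ∀ g : G, ∑ k ∈ α.support, α k * f (k⁻¹ * g) = 0}

open Classical in
/-- The von Neumann dimension of the kernel of left convolution by `α`: one minus the square of the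
distance from the basis vector at the identity of `G` to the kernel (this is the squared length of
the projection of that vector to the kernel). -/
noncomputable def kerDim {G : Type u} [Group G] (α : G →₀ ℂ) : ℝ :=
  1 - Metric.infDist (lp.single 2 (1 : G) (1 : ℂ)) (kernel α) ^ 2

/-- All coefficients of `β` lie in `K`. -/
def Over {G : Type u} (K : Subfield ℂ) (β : G →₀ ℂ) : Prop := ∀ g, β g ∈ K

/-- The set of the kernel dimensions of the nonzero elements of `F[G]` supported in the finite set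
`T`. -/
def values {G : Type u} [Group G] (F : Subfield ℂ) (T : Finset G) : Set ℝ :=
  {r | ∃ α : G →₀ ℂ, Over F α ∧ α ≠ 0 ∧ α.support ⊆ T ∧ kerDim α = r}

section
variable {G : Type u} [Group G]

theorem kerDim_eq (α : G →₀ ℂ) :
    kerDim α = W649.ZL.vd (LinearMap.ker
      (W649.ZL.cop α : W649.ZL.EE G Unit →ₗ[ℂ] W649.ZL.EE G Unit)) :=
  W649.ZL.kerDim_eq_vd α

/-- kernel dimensions in terms of coefficients -/
noncomputable def kd (T : Finset G) (a : T → ℂ) : ℝ :=
  W649.ZL.vd (LinearMap.ker (W649.ZL.lin (fun t : T => W649.ZL.Ltr (t : G)) a :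
    W649.ZL.EE G Unit →ₗ[ℂ] W649.ZL.EE G Unit))

theorem kerDim_ofF (T : Finset G) (a : T → ℂ) : kerDim (W649.ZL.ofF T a) = kd T a := by
  rw [kerDim_eq, W649.ZL.cop_ofF]
  rfl

theorem kd_nonneg (T : Finset G) (a : T → ℂ) : 0 ≤ kd T a := W649.ZL.vd_nonneg _

theorem kd_closed (T : Finset G) (d : ℝ) :
    zeroLocus ℂ (vanishingIdeal ℂ {a | d ≤ kd T a}) = {a | d ≤ kd T a} :=
  W649.ZL.locus_closed (fun t : T => W649.ZL.Ltr (t : G)) (fun t => W649.ZL.elem_eqv _ _ _) d

theorem kerDim_lt_one (α : G →₀ ℂ) (hα : α ≠ 0) : kerDim α < 1 := by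
  classical
  rw [kerDim_eq]
  by_contra hcon
  push Not at hcon
  set P : Submodule ℂ (W649.ZL.EE G Unit) :=
    LinearMap.ker (W649.ZL.cop α : W649.ZL.EE G Unit →ₗ[ℂ] W649.ZL.EE G Unit) with hP
  have hPc : IsClosed (P : Set (W649.ZL.EE G Unit)) := ContinuousLinearMap.isClosed_ker _
  have hPi : W649.ZL.Inv P := W649.ZL.inv_ker _ (W649.ZL.cop_eqv _)
  have h1 := V1132.KD.vd_orth hPc
  rw [Fintype.card_unit, Nat.cast_one] at h1
  have h2 : Pᗮ = ⊥ := W649.ZL.eq_bot_of_vd_eq_zero _ (V1132.KD.inv_orth hPi) (by linarith)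
  have h3 : P = ⊤ := by
    have := hPc.completeSpace_coe
    rwa [Submodule.orthogonal_eq_bot_iff] at h2
  apply hα
  ext g
  have h4 : (W649.ZL.dl ((1 : G), ()) : W649.ZL.EE G Unit) ∈ P := by rw [h3]; trivial
  have h5 : W649.ZL.cop α (W649.ZL.dl ((1 : G), ())) = 0 := h4
  have h6 := congrArg (fun f : W649.ZL.EE G Unit => f (g, ())) h5
  simp only [W649.ZL.cop_apply] at h6
  have h7 : ∑ k ∈ α.support, α k * (W649.ZL.dl ((1 : G), ()) : W649.ZL.EE G Unit)
      (k⁻¹ * g, ()) = α g := by
    rw [Finset.sum_eq_single g]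
    · rw [inv_mul_cancel, W649.ZL.dl_apply_self, mul_one]
    · intro k _ hk
      rw [W649.ZL.dl_apply_ne, mul_zero]
      intro h
      apply hk
      have h8 := (Prod.mk.inj h).1
      rw [inv_mul_eq_one] at h8
      exact h8
    · intro h
      rw [Finsupp.notMem_support_iff.1 h, zero_mul]
  rw [h7] at h6
  exact h6

theorem kerDim_zero : kerDim (0 : G →₀ ℂ) = 1 := by
  rw [kerDim_eq, map_zero]
  have h8 : LinearMap.ker ((0 : W649.ZL.EE G Unit →L[ℂ] W649.ZL.EE G Unit) :
      W649.ZL.EE G Unit →ₗ[ℂ] W649.ZL.EE G Unit) = ⊤ := by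
    rw [eq_top_iff]
    intro x _
    rfl
  rw [h8, W649.ZL.vd_top, Fintype.card_unit, Nat.cast_one]

theorem kerDim_nonneg (α : G →₀ ℂ) : 0 ≤ kerDim α := by
  rw [kerDim_eq]
  exact W649.ZL.vd_nonneg _

/-- all values, including that of zero -/
def allv (F : Subfield ℂ) (T : Finset G) : Set ℝ :=
  Set.range (fun v : T → F => kd T (V1132.GE.up v))

theorem over_ofF (F : Subfield ℂ) (T : Finset G) (v : T → F) :
    Over F (W649.ZL.ofF T (V1132.GE.up v)) := by
  intro g
  by_cases hg : g ∈ T
  · have h1 := W649.ZL.ofF_apply T (V1132.GE.up v) ⟨g, hg⟩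
    change W649.ZL.ofF T (V1132.GE.up v) g = _ at h1
    rw [h1]
    exact (v _).2
  · have h1 : W649.ZL.ofF T (V1132.GE.up v) g = 0 := by
      by_contra hne
      exact hg (W649.ZL.ofF_support _ _ (Finsupp.mem_support_iff.2 hne))
    rw [h1]
    exact F.zero_mem

theorem values_sub (F : Subfield ℂ) (T : Finset G) : values F T ⊆ allv F T := by
  rintro r ⟨α, hα, -, hT, rfl⟩
  refine ⟨fun t => ⟨α t, hα _⟩, ?_⟩
  change kd T (fun t : T => α t) = kerDim α
  rw [← kerDim_ofF, W649.ZL.ofF_eq T α hT]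

theorem mem_values_of_lt (F : Subfield ℂ) (T : Finset G) (r : ℝ) (hr : r ∈ allv F T)
    (h : r < 1) : r ∈ values F T := by
  obtain ⟨v, rfl⟩ := hr
  refine ⟨W649.ZL.ofF T (V1132.GE.up v), over_ofF F T v, ?_, W649.ZL.ofF_support _ _,
    kerDim_ofF T _⟩
  intro h0
  have h1 : kd T (V1132.GE.up v) = 1 := by
    rw [← kerDim_ofF, h0, kerDim_zero]
  exact absurd h1 h.ne

theorem values_max (F : Subfield ℂ) (T : Finset G) (W : Set ℝ)
    (hW : W ⊆ values F T) (hne : W.Nonempty) : ∃ r ∈ W, ∀ s ∈ W, s ≤ r := by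
  have hW' := hW.trans (values_sub F T)
  obtain ⟨p, hp, hmax⟩ := W649.ZL.acc (fun t : T => W649.ZL.Ltr (t : G))
    (fun _ => W649.ZL.elem_eqv _ _ _) {p | kd T p ∈ W} (by
      obtain ⟨r, hr⟩ := hne
      obtain ⟨v, hv⟩ := hW' hr
      refine ⟨V1132.GE.up v, ?_⟩
      change kd T (V1132.GE.up v) ∈ W
      rw [show kd T (V1132.GE.up v) = r from hv]
      exact hr)
  refine ⟨kd T p, hp, fun s hs => ?_⟩
  obtain ⟨v, hv⟩ := hW' hs
  have h1 : kd T (V1132.GE.up v) = s := hv
  rw [← h1]
  apply hmax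
  change kd T (V1132.GE.up v) ∈ W
  rw [h1]
  exact hs

theorem values_countable (F : Subfield ℂ) (T : Finset G) : (values F T).Countable := by
  refine (W649.ZL.kd_countable (fun t : T => W649.ZL.Ltr (t : G))
    (fun _ => W649.ZL.elem_eqv _ _ _)).mono ((values_sub F T).trans ?_)
  rintro _ ⟨v, rfl⟩
  exact ⟨V1132.GE.up v, rfl⟩

/-- the gap below one -/
theorem values_gap (T : Finset G) : ∃ c : ℝ, c < 1 ∧ ∀ F : Subfield ℂ, ∀ r ∈ values F T, r ≤ c := by
  have hmono : ∀ F : Subfield ℂ, values F T ⊆ values (⊤ : Subfield ℂ) T := by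
    rintro F r ⟨α, _, h0, hT, hr⟩
    exact ⟨α, fun g => Subfield.mem_top _, h0, hT, hr⟩
  by_cases hne : (values (⊤ : Subfield ℂ) T).Nonempty
  · obtain ⟨c, hc, hmax⟩ := values_max ⊤ T _ subset_rfl hne
    refine ⟨c, ?_, fun F r hr => hmax r (hmono F hr)⟩
    obtain ⟨α, -, h0, -, rfl⟩ := hc
    exact kerDim_lt_one α h0
  · exact ⟨0, one_pos, fun F r hr => absurd ⟨r, hmono F hr⟩ hne⟩

theorem values_closed (F : Subfield ℂ) [IsAlgClosed F] [Uncountable F] (T : Finset G) :
    IsClosed (values F T) := by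
  obtain ⟨c, hc, hle⟩ := values_gap (G := G) T
  have h1 : values F T = allv F T ∩ Set.Iic c := by
    apply Set.Subset.antisymm
    · exact Set.subset_inter (values_sub F T) (fun r hr => hle F r hr)
    · rintro r ⟨h1, h2⟩
      exact mem_values_of_lt F T r h1 (lt_of_le_of_lt h2 hc)
  rw [h1]
  exact (V1132.GE.closed_up (F := F) (kd T) (kd_closed T)).inter isClosed_Iic

end

/-- **The set of kernel dimensions is compact.** Let `G` be any group. For a subfield `F` of `ℂ` and a
finite subset `T` of `G` let `V(F, T)` be the set of the von Neumann dimensions of the kernels on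
`ℓ²(G)` of the nonzero elements of `F[G]` supported in `T`.

1. For every `F` the set `V(F, T)` is countable and every nonempty subset of it has a largest
   element; there is no strictly increasing sequence of values. There is a number `c < 1` such that
   `V(F, T)` is contained in `[0, c]`, for all `F`.
2. If `F` is algebraically closed and uncountable, for instance `F = ℂ`, then `V(F, T)` is compact. In
   particular, if there are nonzero elements supported in `T` with arbitrarily small kernel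
   dimension, then there is one which acts injectively on `ℓ²(G)`.
3. If `G` is countable and `K` is a countable algebraically closed subfield of `ℂ`, for instance the
   field of algebraic numbers, then there is a subfield `F` of `ℂ` which contains `K` and is
   isomorphic to `ℂ` such that `V(F, T)` is the closure of `V(K, T)`, for all `T`. -/
theorem result {G : Type u} [Group G] :
    (∀ (F : Subfield ℂ) (T : Finset G), (values F T).Countable ∧
      ∀ W ⊆ values F T, W.Nonempty → ∃ r ∈ W, ∀ s ∈ W, s ≤ r) ∧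
    (∀ T : Finset G, ∃ c : ℝ, c < 1 ∧ ∀ F : Subfield ℂ, values F T ⊆ Set.Icc 0 c) ∧
    (∀ (F : Subfield ℂ) [IsAlgClosed F] [Uncountable F] (T : Finset G),
      IsCompact (values F T)) ∧
    (∀ [Countable G] (K : Subfield ℂ) [IsAlgClosed K] [Countable K],
      ∃ F : Subfield ℂ, (∀ x ∈ K, x ∈ F) ∧ Nonempty (ℂ ≃+* F) ∧
        ∀ T : Finset G, values F T = closure (values K T)) := by
  have hb : ∀ T : Finset G, ∃ c : ℝ, c < 1 ∧ ∀ F : Subfield ℂ, values F T ⊆ Set.Icc 0 c := by
    intro T
    obtain ⟨c, hc, h⟩ := values_gap (G := G) T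
    refine ⟨c, hc, fun F r hr => ⟨?_, h F r hr⟩⟩
    obtain ⟨α, -, -, -, rfl⟩ := hr
    exact kerDim_nonneg α
  refine ⟨fun F T => ⟨values_countable F T, values_max F T⟩, hb, ?_, ?_⟩
  · intro F _ _ T
    obtain ⟨c, -, h⟩ := hb T
    exact Metric.isCompact_of_isClosed_isBounded (values_closed F T)
      (Metric.isBounded_Icc 0 c |>.subset (h F))
  · intro _ K _ _
    obtain ⟨σ, hσ, h⟩ := V1132.GE.exists_embeddingG (Y := fun T : Finset G => T) K kd kd_nonneg
      kd_closed
    have e : ℂ ≃+* σ.fieldRange := σ.rangeRestrictFieldEquiv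
    have hac : IsAlgClosed σ.fieldRange := IsAlgClosed.of_ringEquiv ℂ σ.fieldRange e
    have hun0 : Uncountable ℂ := by
      rw [← not_countable_iff]
      intro h
      exact not_countable_complex (Set.countable_univ_iff.2 h)
    have hun : Uncountable σ.fieldRange := e.injective.uncountable
    have hK : ∀ x ∈ K, x ∈ σ.fieldRange := fun x hx => ⟨x, hσ ⟨x, hx⟩⟩
    refine ⟨σ.fieldRange, hK, ⟨e⟩, fun T => ?_⟩
    apply Set.Subset.antisymm
    · rintro r ⟨α, hα, h0, hT, rfl⟩
      rw [Metric.mem_closure_iff]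
      intro ε hε
      choose a ha using fun g => hα g
      have h1 : (fun t : T => σ (a t)) = fun t : T => α t := by
        funext t
        exact ha _
      have hlt := kerDim_lt_one α h0
      obtain ⟨b, -, hb1, hb2⟩ := h T (fun t : T => a t) (min ε (1 - kerDim α))
        (lt_min hε (by linarith))
      have h2 : kd T (fun t : T => α t) = kerDim α := by
        rw [← kerDim_ofF, W649.ZL.ofF_eq T α hT]
      rw [h1, h2] at hb1 hb2
      have h3 := min_le_left ε (1 - kerDim α)
      have h4 := min_le_right ε (1 - kerDim α)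
      refine ⟨kd T (V1132.GE.up b), ?_, ?_⟩
      · exact mem_values_of_lt K T _ ⟨b, rfl⟩ (by linarith)
      · rw [Real.dist_eq, abs_lt]
        constructor <;> linarith
    · refine closure_minimal ?_ (values_closed σ.fieldRange T)
      rintro r ⟨α, hα, h0, hT, hr⟩
      exact ⟨α, fun g => hK _ (hα g), h0, hT, hr⟩

end Pool.Agent.Results.MP_0f25e6_al.CompactValues
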