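import Pool.Agent.V1132.GE.Gen
import Pool.Agent.V1132.KD.Bez

set_option autoImplicit false
set_option linter.unusedSectionVars false

universe u

namespace Pool.Agent.Results.MP_0f25e6_al.GenericCoefficients

open MvPolynomial Pool.Agent

/-- `α * f` is nonzero for every nonzero square-summable `f`, where
`(α * f)(g) = ∑ α(k) f(k⁻¹ g)`. -/
def Regular {G : Type u} [Group G] (α : G →₀ ℂ) : Prop :=
  ∀ f : G → ℂ, Memℓp f 2 → f ≠ 0 → ∃ g : G, ∑ k ∈ α.support, α k * f (k⁻¹ * g) ≠ 0

/-- All square-summable `f` with `α * f = 0`. -/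
def kernel {G : Type u} [Group G] (α : G →₀ ℂ) : Set (lp (fun _ : G => ℂ) 2) :=
  {f | ∀ g : G, ∑ k ∈ α.support, α k * f (k⁻¹ * g) = 0}

open Classical in
/-- The von Neumann dimension of the kernel of left convolution by `α`: one minus the square of the
distance from the basis vector at the identity of `G` to the kernel (this is the squared length of
the projection of that vector to the kernel). -/
noncomputable def kerDim {G : Type u} [Group G] (α : G →₀ ℂ) : ℝ :=
  1 - Metric.infDist (lp.single 2 (1 : G) (1 : ℂ)) (kernel α) ^ 2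

/-- The field homomorphism `σ` applied to the coefficients of `α`. -/
noncomputable def twist {G : Type u} (σ : ℂ →+* ℂ) (α : G →₀ ℂ) : G →₀ ℂ :=
  α.mapRange σ (map_zero σ)

/-- All coefficients of `β` lie in `K`. -/
def Over {G : Type u} (K : Subfield ℂ) (β : G →₀ ℂ) : Prop := ∀ g, β g ∈ K

/-- The kernel dimension of `α` is a limit from above of kernel dimensions of elements of `K[G]` with
smaller supports. -/
def LimitOf {G : Type u} [Group G] (K : Subfield ℂ) (α : G →₀ ℂ) : Prop :=
  ∀ ε : ℝ, 0 < ε → ∃ β : G →₀ ℂ, Over K β ∧ β.support ⊆ α.support ∧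
    kerDim α ≤ kerDim β ∧ kerDim β < kerDim α + ε

section
variable {G : Type u} [Group G]

theorem kerDim_eq (α : G →₀ ℂ) :
    kerDim α = W649.ZL.vd (LinearMap.ker
      (W649.ZL.cop α : W649.ZL.EE G Unit →ₗ[ℂ] W649.ZL.EE G Unit)) :=
  W649.ZL.kerDim_eq_vd α

/-- kernel dimensions in terms of coefficients -/
noncomputable def kd (T : Finset G) (a : T → ℂ) : ℝ :=
  W649.ZL.vd (LinearMap.ker (W649.ZL.lin (fun t : T => W649.ZL.Ltr (t : G)) a :
    W649.ZL.EE G Unit →ₗ[ℂ] W649.ZL.EE G Unit))

theorem kerDim_ofF (T : Finset G) (a : T → ℂ) : kerDim (W649.ZL.ofF T a) = kd T a := by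
  rw [kerDim_eq, W649.ZL.cop_ofF]
  rfl

theorem kd_nonneg (T : Finset G) (a : T → ℂ) : 0 ≤ kd T a := W649.ZL.vd_nonneg _

theorem kd_closed (T : Finset G) (d : ℝ) :
    zeroLocus ℂ (vanishingIdeal ℂ {a | d ≤ kd T a}) = {a | d ≤ kd T a} :=
  W649.ZL.locus_closed (fun t : T => W649.ZL.Ltr (t : G)) (fun t => W649.ZL.elem_eqv _ _ _) d

theorem kerDim_zero_iff (α : G →₀ ℂ) : kerDim α = 0 ↔ Regular α := by
  have h1 : Regular α ↔ Function.Injective (W649.ZL.cop α) := W649.ZL.regular_iff α
  rw [h1, kerDim_eq]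
  constructor
  · intro h
    exact W649.ZL.injective_of_vd_eq_zero _ (W649.ZL.cop_eqv _) h.le
  · intro h
    have h2 : LinearMap.ker (W649.ZL.cop α : W649.ZL.EE G Unit →ₗ[ℂ] W649.ZL.EE G Unit) = ⊥ :=
      LinearMap.ker_eq_bot.2 h
    rw [h2, W649.ZL.vd_bot]

theorem kerDim_lt_one (α : G →₀ ℂ) (hα : α ≠ 0) : kerDim α < 1 := by
  classical
  rw [kerDim_eq]
  by_contra hcon
  push Not at hcon
  set P : Submodule ℂ (W649.ZL.EE G Unit) :=
    LinearMap.ker (W649.ZL.cop α : W649.ZL.EE G Unit →ₗ[ℂ] W649.ZL.EE G Unit) with hP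
  have hPc : IsClosed (P : Set (W649.ZL.EE G Unit)) := ContinuousLinearMap.isClosed_ker _
  have hPi : W649.ZL.Inv P := W649.ZL.inv_ker _ (W649.ZL.cop_eqv _)
  have h1 := V1132.KD.vd_orth hPc
  rw [Fintype.card_unit, Nat.cast_one] at h1
  have h2 : Pᗮ = ⊥ := W649.ZL.eq_bot_of_vd_eq_zero _ (V1132.KD.inv_orth hPi) (by linarith)
  have h3 : P = ⊤ := by
    have := hPc.completeSpace_coe
    rwa [Submodule.orthogonal_eq_bot_iff] at h2
  apply hα
  ext g
  have h4 : (W649.ZL.dl ((1 : G), ()) : W649.ZL.EE G Unit) ∈ P := by rw [h3]; trivial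
  have h5 : W649.ZL.cop α (W649.ZL.dl ((1 : G), ())) = 0 := h4
  have h6 := congrArg (fun f : W649.ZL.EE G Unit => f (g, ())) h5
  simp only [W649.ZL.cop_apply] at h6
  have h7 : ∑ k ∈ α.support, α k * (W649.ZL.dl ((1 : G), ()) : W649.ZL.EE G Unit)
      (k⁻¹ * g, ()) = α g := by
    rw [Finset.sum_eq_single g]
    · rw [inv_mul_cancel, W649.ZL.dl_apply_self, mul_one]
    · intro k _ hk
      rw [W649.ZL.dl_apply_ne, mul_zero]
      intro h
      apply hk
      have h8 := (Prod.mk.inj h).1
      rw [inv_mul_eq_one] at h8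
      exact h8
    · intro h
      rw [Finsupp.notMem_support_iff.1 h, zero_mul]
  rw [h7] at h6
  exact h6

theorem limitOf (K : Subfield ℂ) (α : G →₀ ℂ)
    (h : ∀ ε : ℝ, 0 < ε → ∃ b : α.support → K,
        kd α.support (fun t => α t) ≤ kd α.support (V1132.GE.up b) ∧
        kd α.support (V1132.GE.up b) < kd α.support (fun t => α t) + ε) :
    LimitOf K α := by
  classical
  intro ε hε
  obtain ⟨b, hb1, hb2⟩ := h ε hε
  have h1 : W649.ZL.ofF α.support (fun t => α t) = α := W649.ZL.ofF_eq _ α subset_rfl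
  have h2 : kerDim α = kd α.support (fun t => α t) := by
    rw [← kerDim_ofF, h1]
  refine ⟨W649.ZL.ofF α.support (V1132.GE.up b), ?_, W649.ZL.ofF_support _ _, ?_, ?_⟩
  · intro g
    by_cases hg : g ∈ α.support
    · have h3 := W649.ZL.ofF_apply α.support (V1132.GE.up b) ⟨g, hg⟩
      change W649.ZL.ofF α.support (V1132.GE.up b) g = _ at h3
      rw [h3]
      exact (b _).2
    · have h3 : W649.ZL.ofF α.support (V1132.GE.up b) g = 0 := by
        by_contra hne
        exact hg (W649.ZL.ofF_support _ _ (Finsupp.mem_support_iff.2 hne))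
      rw [h3]
      exact K.zero_mem
  · rw [kerDim_ofF, h2]
    exact hb1
  · rw [kerDim_ofF, h2]
    exact hb2

end

/-- **Generic coefficients.** Let `G` be a countable group and `K` a countable algebraically closed
subfield of `ℂ` (for instance the field of algebraic numbers).

1. For every `p` there are countably many nonzero polynomials in `p` variables such that for every
   `z` in `ℂ^p` which is a zero of none of them, the kernel dimension of every element of the group
   algebra whose coefficients are algebraic over `K(z₁, …, z_p)` is a limit from above of kernel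
   dimensions of elements of `K[G]` with smaller supports. For `p = 1` this says: for all but
   countably many complex numbers `z`.
2. There is a field homomorphism `σ : ℂ → ℂ` which is the identity on `K` such that the same is true
   for all elements `σ(α)`, `α` in `ℂ[G]`.
3. Let `0 ≤ c < 1`. If the kernel dimensions of all nonzero elements of `K[G]` are at most `c`, then
   so are those of all the nonzero elements of 1 and 2. In particular, if all nonzero elements of
   `K[G]` act injectively on `ℓ²(G)`, then so do all nonzero elements of `F[G]`, where `F = σ(ℂ)`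
   contains `K` and is isomorphic to `ℂ`, and, for all `z` as in 1, all nonzero elements of the group
   algebra over the algebraic closure of `K(z₁, …, z_p)`. -/
theorem result {G : Type u} [Group G] [Countable G] (K : Subfield ℂ) [IsAlgClosed K]
    [Countable K] :
    (∀ p : ℕ, ∃ Q : ℕ → MvPolynomial (Fin p) ℂ, (∀ n, Q n ≠ 0) ∧
      ∀ z : Fin p → ℂ, (∀ n, eval z (Q n) ≠ 0) → ∀ α : G →₀ ℂ,
        (∀ g, IsAlgebraic (Subfield.closure (K ∪ Set.range z)) (α g)) → LimitOf K α) ∧
    (∃ σ : ℂ →+* ℂ, (∀ x ∈ K, σ x = x) ∧ ∀ α : G →₀ ℂ, LimitOf K (twist σ α)) ∧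
    (∀ c : ℝ, 0 ≤ c → c < 1 → (∀ β : G →₀ ℂ, Over K β → β ≠ 0 → kerDim β ≤ c) →
      ∀ α : G →₀ ℂ, LimitOf K α → α ≠ 0 → kerDim α ≤ c) ∧
    ((∀ β : G →₀ ℂ, Over K β → β ≠ 0 → Regular β) →
      ∀ α : G →₀ ℂ, LimitOf K α → α ≠ 0 → Regular α) := by
  classical
  have h3 : ∀ c : ℝ, 0 ≤ c → c < 1 → (∀ β : G →₀ ℂ, Over K β → β ≠ 0 → kerDim β ≤ c) →
      ∀ α : G →₀ ℂ, LimitOf K α → α ≠ 0 → kerDim α ≤ c := by
    intro c hc0 hc1 hK α hα hne
    have h1 := kerDim_lt_one α hne
    obtain ⟨β, hβ, -, h4, h5⟩ := hα (1 - kerDim α) (by linarith)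
    have h6 : β ≠ 0 := by
      rintro rfl
      have h7 : kerDim (0 : G →₀ ℂ) = 1 := by
        rw [kerDim_eq, map_zero]
        have h8 : LinearMap.ker ((0 : W649.ZL.EE G Unit →L[ℂ] W649.ZL.EE G Unit) :
            W649.ZL.EE G Unit →ₗ[ℂ] W649.ZL.EE G Unit) = ⊤ := by
          rw [eq_top_iff]
          intro x _
          rfl
        rw [h8, W649.ZL.vd_top, Fintype.card_unit, Nat.cast_one]
      linarith
    exact h4.trans (hK β hβ h6)
  refine ⟨?_, ?_, h3, ?_⟩
  · intro p
    obtain ⟨Q, hQ0, hQ⟩ := V1132.GE.familyG (Y := fun T : Finset G => T) K kd kd_nonneg kd_closed p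
    refine ⟨Q, hQ0, fun z hz α hα => ?_⟩
    refine limitOf K α fun ε hε => ?_
    obtain ⟨b, -, hb1, hb2⟩ := (hQ z hz).2 α.support (fun t : α.support => α t)
      (fun t => V1132.GE.alg_closure K z _ (hα _)) ε hε
    exact ⟨b, hb1, hb2⟩
  · obtain ⟨σ, hσ, h⟩ := V1132.GE.exists_embeddingG (Y := fun T : Finset G => T) K kd kd_nonneg
      kd_closed
    refine ⟨σ, fun x hx => hσ ⟨x, hx⟩, fun α => ?_⟩
    refine limitOf K _ fun ε hε => ?_
    obtain ⟨b, -, hb1, hb2⟩ := h (twist σ α).support (fun t : (twist σ α).support => α t) ε hε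
    have h1 : (fun t : (twist σ α).support => σ (α t)) =
        fun t : (twist σ α).support => twist σ α t := by
      funext t
      unfold twist
      rw [Finsupp.mapRange_apply]
    rw [h1] at hb1 hb2
    exact ⟨b, hb1, hb2⟩
  · intro hK α hα hne
    apply (kerDim_zero_iff α).1
    apply le_antisymm
    · exact h3 0 le_rfl one_pos (fun β hβ hβ0 => ((kerDim_zero_iff β).2 (hK β hβ hβ0)).le) α hα hne
    · rw [kerDim_eq]
      exact W649.ZL.vd_nonneg _

end Pool.Agent.Results.MP_0f25e6_al.GenericCoefficients
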