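import Pool.Agent.W649.ZL.Supp
import Pool.Agent.W649.ZL.Fam
import Pool.Agent.V1132.KD.Main
import Pool.Agent.V1132.KD.Gen

set_option autoImplicit false
set_option linter.unusedSectionVars false

universe u

namespace Pool.Agent.Results.MP_0f25e6_al.PolynomialFamilies

open Pool.Agent

/-- `α * f` is nonzero for every nonzero square-summable `f`, where
`(α * f)(g) = ∑ α(k) f(k⁻¹ g)`. -/
def Regular {G : Type u} [Group G] (α : G →₀ ℂ) : Prop :=
  ∀ f : G → ℂ, Memℓp f 2 → f ≠ 0 → ∃ g : G, ∑ k ∈ α.support, α k * f (k⁻¹ * g) ≠ 0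

/-- All square-summable `f` with `α * f = 0`. -/
def kernel {G : Type u} [Group G] (α : G →₀ ℂ) : Set (lp (fun _ : G => ℂ) 2) :=
  {f | ∀ g : G, ∑ k ∈ α.support, α k * f (k⁻¹ * g) = 0}

open Classical in
/-- The von Neumann dimension of the kernel of left convolution by `α`: one minus the square of the
distance from the basis vector at the identity of `G` to the kernel (this is the squared length of
the projection of that vector to the kernel). -/
noncomputable def kerDim {G : Type u} [Group G] (α : G →₀ ℂ) : ℝ :=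
  1 - Metric.infDist (lp.single 2 (1 : G) (1 : ℂ)) (kernel α) ^ 2

theorem kerDim_eq {G : Type u} [Group G] (α : G →₀ ℂ) :
    kerDim α = W649.ZL.vd (LinearMap.ker
      (W649.ZL.cop α : W649.ZL.EE G Unit →ₗ[ℂ] W649.ZL.EE G Unit)) :=
  W649.ZL.kerDim_eq_vd α

/-- A group is locally indicable if every nontrivial finitely generated subgroup has a nontrivial
homomorphism to the group of integers. -/
def LocallyIndicable (H : Type u) [Group H] : Prop :=
  ∀ K : Subgroup H, K.FG → K ≠ ⊥ → ∃ φ : K →* Multiplicative ℤ, ∃ k, φ k ≠ 1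

/-- The value `α 0 + z α 1 + ... + z ^ D α D` at `z` of a polynomial over the group algebra. -/
noncomputable def value {G : Type u} {D : ℕ} (α : Fin (D + 1) → (G →₀ ℂ)) (z : ℂ) : G →₀ ℂ :=
  ∑ k : Fin (D + 1), z ^ (k : ℕ) • α k

section
variable {G : Type u} [Group G]

theorem kerDim_value {D : ℕ} (α : Fin (D + 1) → (G →₀ ℂ)) (z : ℂ) :
    kerDim (value α z) = W649.ZL.vd (V1132.KD.kr (V1132.KD.pv D
      (fun k => if h : k < D + 1 then W649.ZL.cop (α ⟨k, h⟩) else 0) z)) := by
  have h2 : W649.ZL.cop (value α z) = V1132.KD.pv D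
      (fun k => if h : k < D + 1 then W649.ZL.cop (α ⟨k, h⟩) else 0) z := by
    unfold V1132.KD.pv value
    rw [Finset.sum_range, map_sum]
    refine Finset.sum_congr rfl fun k _ => ?_
    simp only [k.2, dif_pos, Fin.eta, map_smul]
  rw [kerDim_eq, h2]

theorem bound {D : ℕ} (α : Fin (D + 1) → (G →₀ ℂ)) (w : ℂ) (S : Finset ℂ) :
    ∑ z ∈ S, (kerDim (value α z) - kerDim (value α w)) ≤ D * (1 - kerDim (value α w)) := by
  simp only [kerDim_value α]
  have h := V1132.KD.bez D (fun k => if h : k < D + 1 then W649.ZL.cop (α ⟨k, h⟩) else 0) (by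
    intro k
    by_cases hk : k < D + 1
    · rw [dif_pos hk]
      exact W649.ZL.cop_eqv _
    · rw [dif_neg hk]
      intro g f
      change (0 : W649.ZL.EE G Unit) = W649.ZL.tr g 0
      rw [W649.ZL.tr_zero]) w S
  rw [Fintype.card_unit, Nat.cast_one] at h
  exact h

theorem kerDim_nonneg (α : G →₀ ℂ) : 0 ≤ kerDim α := by
  rw [kerDim_eq]
  exact W649.ZL.vd_nonneg _

theorem kerDim_zero_iff (α : G →₀ ℂ) : kerDim α = 0 ↔ Regular α := by
  have h1 : Regular α ↔ Function.Injective (W649.ZL.cop α) := W649.ZL.regular_iff α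
  rw [h1, kerDim_eq]
  constructor
  · intro h
    exact W649.ZL.injective_of_vd_eq_zero _ (W649.ZL.cop_eqv _) h.le
  · intro h
    have h2 : LinearMap.ker (W649.ZL.cop α : W649.ZL.EE G Unit →ₗ[ℂ] W649.ZL.EE G Unit) = ⊥ :=
      LinearMap.ker_eq_bot.2 h
    rw [h2, W649.ZL.vd_bot]

theorem value_zero {D : ℕ} (α : Fin (D + 1) → (G →₀ ℂ)) : value α 0 = α 0 := by
  unfold value
  rw [Finset.sum_eq_single 0]
  · simp
  · intro k _ hk
    have : (k : ℕ) ≠ 0 := fun h => hk (Fin.ext h)
    rw [zero_pow this, zero_smul]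
  · intro h
    exact absurd (Finset.mem_univ _) h

/-- reversal of the coefficients -/
theorem value_rev {D : ℕ} (α : Fin (D + 1) → (G →₀ ℂ)) (z : ℂ) (hz : z ≠ 0) :
    value α z = z ^ D • value (fun k => α (Fin.rev k)) z⁻¹ := by
  unfold value
  rw [Finset.smul_sum, ← Equiv.sum_comp Fin.revPerm]
  refine Finset.sum_congr rfl fun k _ => ?_
  rw [smul_smul, Fin.revPerm_apply]
  congr 1
  have h1 : D = (Fin.rev k : ℕ) + (k : ℕ) := by
    rw [Fin.val_rev]
    omega
  have h2 : z ^ D = z ^ ((Fin.rev k : ℕ) + (k : ℕ)) := by rw [← h1]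
  rw [h2, pow_add, mul_assoc, ← mul_pow, mul_inv_cancel₀ hz, one_pow, mul_one]

theorem regular_smul (c : ℂ) (hc : c ≠ 0) (α : G →₀ ℂ) (h : Regular α) : Regular (c • α) := by
  have h1 : Function.Injective (W649.ZL.cop α) := (W649.ZL.regular_iff α).1 h
  refine (W649.ZL.regular_iff (c • α)).2 ?_
  rw [map_smul]
  intro x y hxy
  apply h1
  have h2 : c • W649.ZL.cop α x = c • W649.ZL.cop α y := hxy
  exact smul_right_injective _ hc h2

end

/-- **Kernel dimensions along polynomial families.** Let `G` be any group and let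
`α(z) = α₀ + z α₁ + ... + z ^ D α_D` be a polynomial with coefficients in the complex group algebra;
write `dim α(z)` for the von Neumann dimension of the kernel of `α(z)` on `ℓ²(G)`.

1. For every `w` in `ℂ` and every finite set `S` of complex numbers,
   `∑_{z ∈ S} (dim α(z) - dim α(w)) ≤ D (1 - dim α(w))`.
2. There is a number `g ≥ 0` with `dim α(z) ≥ g` for all `z`, with equality for all but countably
   many `z`, and `∑_{z ∈ S} (dim α(z) - g) ≤ D (1 - g)` for every finite `S`; in particular, for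
   `d > 0`, at most `D (1 - g) / d` numbers `z` satisfy `dim α(z) ≥ g + d`.
3. If some value `α(w)`, or the leading coefficient `α_D`, acts injectively on `ℓ²(G)`, or is
   nonzero with support in a left coset of a locally indicable subgroup, then `α(z)` acts
   injectively on `ℓ²(G)` for all but countably many `z`, and `∑_{z ∈ S} dim α(z) ≤ D` for every
   finite `S`. -/
theorem result {G : Type u} [Group G] {D : ℕ} (α : Fin (D + 1) → (G →₀ ℂ)) :
    (∀ (w : ℂ) (S : Finset ℂ),
      ∑ z ∈ S, (kerDim (value α z) - kerDim (value α w)) ≤ D * (1 - kerDim (value α w))) ∧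
    (∃ g : ℝ, 0 ≤ g ∧ (∀ z, g ≤ kerDim (value α z)) ∧
      {z | kerDim (value α z) ≠ g}.Countable ∧
      (∀ S : Finset ℂ, ∑ z ∈ S, (kerDim (value α z) - g) ≤ D * (1 - g)) ∧
      ∀ d : ℝ, 0 < d → {z | g + d ≤ kerDim (value α z)}.Finite ∧
        ({z | g + d ≤ kerDim (value α z)}.ncard : ℝ) ≤ D * (1 - g) / d) ∧
    ∀ β : G →₀ ℂ, (β = α (Fin.last D) ∨ ∃ w, β = value α w) →
      (Regular β ∨ (β ≠ 0 ∧ ∃ (H : Subgroup G) (t : G), LocallyIndicable H ∧
        ∀ x ∈ β.support, t⁻¹ * x ∈ H)) →
      {z | ¬ Regular (value α z)}.Countable ∧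
        ∀ S : Finset ℂ, ∑ z ∈ S, kerDim (value α z) ≤ D := by
  have gen : ∀ γ : Fin (D + 1) → (G →₀ ℂ), ∃ g : ℝ, 0 ≤ g ∧ (∀ z, g ≤ kerDim (value γ z)) ∧
      {z | kerDim (value γ z) ≠ g}.Countable ∧
      (∀ S : Finset ℂ, ∑ z ∈ S, (kerDim (value γ z) - g) ≤ D * (1 - g)) ∧
      ∀ d : ℝ, 0 < d → {z | g + d ≤ kerDim (value γ z)}.Finite ∧
        ({z | g + d ≤ kerDim (value γ z)}.ncard : ℝ) ≤ D * (1 - g) / d := fun γ =>
    V1132.KD.generic (fun z => kerDim (value γ z)) (fun z => kerDim_nonneg _) D 1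
      (fun w S => bound γ w S)
  refine ⟨fun w S => bound α w S, gen α, ?_⟩
  have key : ∀ γ : Fin (D + 1) → (G →₀ ℂ), ∀ w, Regular (value γ w) →
      {z | ¬ Regular (value γ z)}.Countable ∧
        ∀ S : Finset ℂ, ∑ z ∈ S, kerDim (value γ z) ≤ D := by
    intro γ w hw
    obtain ⟨g, hg0, hgle, hgc, hgS, -⟩ := gen γ
    have h0 : g = 0 := by
      apply le_antisymm _ hg0
      have := hgle w
      rw [(kerDim_zero_iff _).2 hw] at this
      exact this
    subst h0
    constructor
    · refine hgc.mono ?_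
      intro z hz
      change kerDim (value γ z) ≠ 0
      intro h
      exact hz ((kerDim_zero_iff _).1 h)
    · intro S
      have := hgS S
      simpa using this
  rintro β hβ hreg
  have hreg' : Regular β := by
    rcases hreg with h | ⟨h0, H, t, hH, hs⟩
    · exact h
    · exact (W649.ZL.regular_iff β).2 (W649.ZL.LI_coset_injective t H hH β hs h0)
  rcases hβ with rfl | ⟨w, rfl⟩
  · have h1 : Regular (value (fun k => α (Fin.rev k)) 0) := by
      rw [value_zero, Fin.rev_zero]
      exact hreg'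
    have h2 := (key (fun k => α (Fin.rev k)) 0 h1).1
    have h3 : ∃ w : ℂ, w ≠ 0 ∧ Regular (value (fun k => α (Fin.rev k)) w) := by
      by_contra hcon
      push Not at hcon
      have h4 : ({0} : Set ℂ)ᶜ ⊆ {z | ¬ Regular (value (fun k => α (Fin.rev k)) z)} := by
        intro z hz
        exact hcon z hz
      have h5 : (Set.univ : Set ℂ).Countable := by
        have h6 := (h2.mono h4).union (Set.countable_singleton (0 : ℂ))
        rw [Set.compl_union_self] at h6
        exact h6
      exact not_countable_complex h5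
    obtain ⟨w, hw0, hw⟩ := h3
    apply key α w⁻¹
    rw [value_rev α w⁻¹ (inv_ne_zero hw0), inv_inv]
    exact regular_smul _ (pow_ne_zero _ (inv_ne_zero hw0)) _ hw
  · exact key α w hreg'

end Pool.Agent.Results.MP_0f25e6_al.PolynomialFamilies
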